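import Pool.Agent.H572R2.ModelR

set_option autoImplicit false

namespace Pool.Agent.Results.MP_58d537_lc.BoundedReads

open Finset Matrix Pool.Agent.H572R2 Pool.Agent.H572R2.ModelR

/-- **Bit-fixing form of the Aaronson-Ambainis problem for quantum algorithms with bounded
reads.**  The basis states are `((i_1, ..., i_q), w)` where each `i_j` is either a position of the
oracle string or `none` (null query).  The algorithm makes `T` adaptive steps; step `k` multiplies
such a state by the product of the phases `(-1)^{x_{i_j}}` over the `j` with `i_j ∈ W k`.  Every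
position lies in at most `r` of the sets `W k`. -/
theorem result :
    ∀ (N T q r m : ℕ)
      (W : Fin T → Finset (Fin N))
      (_ : ∀ i : Fin N, (Finset.univ.filter (fun k : Fin T => i ∈ W k)).card ≤ r)
      (U : Fin (T + 1) → Matrix.unitaryGroup ((Fin q → Option (Fin N)) × Fin m) ℂ)
      (s₀ : (Fin q → Option (Fin N)) × Fin m)
      (Acc : Finset ((Fin q → Option (Fin N)) × Fin m))
      (p : (Fin N → Bool) → ℝ),
      (∀ x : Fin N → Bool,
        p x = ∑ s ∈ Acc,
          ‖(((List.ofFn (fun k : Fin T =>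
              (U k.succ).1 *
                Matrix.diagonal (fun b : (Fin q → Option (Fin N)) × Fin m =>
                  ∏ j : Fin q, Option.elim (b.1 j) (1 : ℂ)
                    (fun i => if i ∈ W k ∧ x i then -1 else 1)))).reverse.prod
              * (U 0).1) s s₀)‖ ^ 2) →
      ∀ E Var : ℝ,
        E = (∑ x : Fin N → Bool, p x) / 2 ^ N →
        Var = (∑ x : Fin N → Bool, (p x - E) ^ 2) / 2 ^ N →
        0 < Var →
        ∃ (S : Finset (Fin N)) (a : Fin N → Bool),
          (S.card : ℝ)
            ≤ 1327104 * (r : ℝ) ^ 2 * ((T : ℝ) * q) ^ 5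
                * (320 * (r : ℝ) ^ 4 * (T : ℝ) ^ 2 * q) ^ (2 * r) / Var ^ 3 ∧
          Real.sqrt (Var / 2) ≤
            |(∑ x ∈ Finset.univ.filter (fun x : Fin N → Bool => ∀ i ∈ S, x i = a i), p x)
                / ((Finset.univ.filter (fun x : Fin N → Bool => ∀ i ∈ S, x i = a i)).card : ℝ)
              - E| := by
  intro N T q r m W hr U s₀ Acc p hp E Var hE hVar hVar0
  have hpr := pr_eq W U s₀ Acc p hp
  have hEE : EE p = E := hE.symm
  have hV : Var = EE (fun x => ((evo W U s₀).pr Acc T x - EE ((evo W U s₀).pr Acc T)) ^ 2) := by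
    rw [hpr, hEE]; exact hVar
  obtain ⟨S, a, h1, h2⟩ := (evo W U s₀).fix T r (reads_card W r hr) Acc Var hV hVar0
  refine ⟨S, a, h1, ?_⟩
  rw [hpr, hEE, Ex_eq] at h2
  rw [← Real.sqrt_sq_eq_abs]
  exact Real.sqrt_le_sqrt h2

end Pool.Agent.Results.MP_58d537_lc.BoundedReads
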