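import Pool.Agent.H746R2.AA.Avg

set_option autoImplicit false

namespace Pool.Agent.Results.MP_58d537_lc.HybridPrograms

open Finset Matrix Pool.Agent.H746R2.AA

/-- **Bit-fixing form of the Aaronson-Ambainis problem for hybrid classical/quantum query
programs.**  `Prog N m` (in `Pool.Agent.H746R2.AA.ProgDef`) are programs which hold a quantum
register with basis states `(position or null, workspace)` and which, in an arbitrary adaptive
order, read oracle bits classically, apply the quantum phase query and apply arbitrary quantum
instruments (unitaries, partial measurements); the whole continuation may depend on the bits read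
and on the outcomes observed.  On every run the program makes at most `k` classical and at most `q`
quantum queries. -/
theorem result :
    ∀ (N m k q : ℕ) (A : Prog N m) (_ : A.cl ≤ k) (_ : A.qu ≤ q)
      (ψ : Option (Fin N) × Fin m → ℂ) (_ : ∑ s, ‖ψ s‖ ^ 2 = 1)
      (p : (Fin N → Bool) → ℝ) (_ : ∀ x : Fin N → Bool, p x = A.prob x ψ),
      ∀ E Var : ℝ,
        E = (∑ x : Fin N → Bool, p x) / 2 ^ N →
        Var = (∑ x : Fin N → Bool, (p x - E) ^ 2) / 2 ^ N →
        0 < Var →
        ∃ (S : Finset (Fin N)) (a : Fin N → Bool),
          (S.card : ℝ) ≤ 2 ^ 37 * 3 ^ (12 * q) * ((k : ℝ) + 2 * q) ^ 7 / Var ^ 5 ∧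
          Real.sqrt (Var / 2) ≤
            |(∑ x ∈ Finset.univ.filter (fun x : Fin N → Bool => ∀ i ∈ S, x i = a i), p x)
                / ((Finset.univ.filter (fun x : Fin N → Bool => ∀ i ∈ S, x i = a i)).card : ℝ)
              - E| := by
  intro N m k q A hk hq ψ hψ p hp E Var hE hVar hV
  exact hybrid_fix k q A hk hq ψ hψ p hp E Var hE hVar hV

end Pool.Agent.Results.MP_58d537_lc.HybridPrograms
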