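import Pool.Agent.H703R2.AB.Alg
import Pool.Agent.H746R2.AA.Avg

/-!
# Bit-fixing form of the Aaronson-Ambainis problem for dominated query distributions

A quantum query algorithm makes `T` queries.  Its classical record (the list of all measurement
outcomes and coin tosses so far, most recent outcome first) is unbounded; the quantum state kept
from one query to the next has an arbitrary dimension `M`.  After the record `h` it applies an
arbitrary isometry `V h` into an arbitrarily large workspace with basis `B`, then the phase query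
(the basis state `b` is multiplied by `(-1)^{x_i}` if `pos h b = some i`, and by `1` if
`pos h b = none`), and then an arbitrary instrument with Kraus operators `K h w`, which map back to
dimension `M` and produce the classical outcome `w`.  The (subnormalised) state after the record `h`
is `A h x`, its squared norm is the probability of the record `h` on the oracle `x`, and `p x` is the
acceptance probability on the oracle `x`, when a transcript `a` is accepted with probability `g a`.
The number `q h k x` is the probability, on the oracle `x`, of the record `h` followed by a query to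
position `k`.

* Q1's conclusion holds with bounds polynomial in `1 / Var`, `T` and `M`.
* It holds with bounds polynomial in `1 / Var`, `T` and `m`, whatever `M` is, if the query
  distributions are dominated: `q h k x ≤ ν h k * ‖A h x‖ ^ 2`, up to a small total excess on the
  average, for numbers `ν h k` which do not depend on `x`, with `∑ k, ν h k ≤ m`.
-/

set_option autoImplicit false

namespace Pool.Agent.Results.MP_58d537_lc.SmoothQueries

open Matrix Pool.Agent.H746R2.AA Pool.Agent.H703R2.AA Pool.Agent.H703R2.AB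

theorem result {B W : Type*} [Fintype B] [DecidableEq B] [Fintype W] (N T M : ℕ)
    -- the algorithm
    (pos : List W → B → Option (Fin N))
    (V : List W → Matrix B (Fin M) ℂ) (hV : ∀ h, (V h)ᴴ * V h = 1)
    (K : List W → W → Matrix (Fin M) B ℂ) (hK : ∀ h, ∑ w, (K h w)ᴴ * K h w = 1)
    (v : Fin M → ℂ) (hv : ∑ i, ‖v i‖ ^ 2 = 1)
    -- its state after a record
    (A : List W → (Fin N → Bool) → Fin M → ℂ)
    (hA0 : ∀ x, A [] x = v)
    (hA : ∀ h w x, A (w :: h) x = K h w *ᵥ (fun b => (Option.elim (pos h b) 1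
      (fun i => if x i then -1 else 1)) * (V h *ᵥ A h x) b))
    -- the probability of a record followed by a query to a position
    (q : List W → Fin N → (Fin N → Bool) → ℝ)
    (hq : ∀ h k x, q h k x = ∑ b with pos h b = some k, ‖(V h *ᵥ A h x) b‖ ^ 2)
    -- its acceptance probability
    (g : (Fin T → W) → ℝ) (hg0 : ∀ a, 0 ≤ g a) (hg1 : ∀ a, g a ≤ 1)
    (p : (Fin N → Bool) → ℝ)
    (hp : ∀ x, p x = ∑ a : Fin T → W, g a * ∑ i, ‖A (List.ofFn a) x i‖ ^ 2)
    -- the mean and the variance
    (E Var : ℝ) (hE : E = (∑ x, p x) / 2 ^ N) (hVar : Var = (∑ x, (p x - E) ^ 2) / 2 ^ N)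
    (hpos : 0 < Var) :
    (∃ (S : Finset (Fin N)) (a : Fin N → Bool),
      (S.card : ℝ) ≤ 2 ^ 23 * (T : ℝ) ^ 9 * (M : ℝ) ^ 2 / Var ^ 4 ∧
      Real.sqrt (Var / 2) ≤
        |(∑ x ∈ Finset.univ.filter (fun x : Fin N → Bool => ∀ i ∈ S, x i = a i), p x)
            / ((Finset.univ.filter (fun x : Fin N → Bool => ∀ i ∈ S, x i = a i)).card : ℝ)
          - E|) ∧
    ∀ (m : ℝ) (ν : List W → Fin N → ℝ), (∀ h k, 0 ≤ ν h k) → (∀ h, ∑ k, ν h k ≤ m) →
      (∑ t ∈ Finset.range T, ∑ a : Fin t → W, (∑ x : Fin N → Bool, ∑ k,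
        max (q (List.ofFn a) k x - ν (List.ofFn a) k * ∑ i, ‖A (List.ofFn a) x i‖ ^ 2) 0) / 2 ^ N
          ≤ Var ^ 2 / (2 ^ 18 * (T : ℝ) ^ 5)) →
      ∃ (S : Finset (Fin N)) (a : Fin N → Bool),
        (S.card : ℝ) ≤ 2 ^ 23 * (T : ℝ) ^ 9 * m ^ 2 / Var ^ 4 ∧
        Real.sqrt (Var / 2) ≤
          |(∑ x ∈ Finset.univ.filter (fun x : Fin N → Bool => ∀ i ∈ S, x i = a i), p x)
              / ((Finset.univ.filter (fun x : Fin N → Bool => ∀ i ∈ S, x i = a i)).card : ℝ)
            - E| := by
  classical
  set P := mkPr pos V K hV hK v hv with hP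
  have hAP : ∀ h y, P.A h y = rv (A h (bx y)) := by
    refine mkPr_A pos V K hV hK v hv (fun h y => A h (bx y)) (fun y => hA0 _) ?_
    intro h w y
    rw [hA]
    congr 1
    funext b
    congr 1
    cases pos h b with
    | none => rfl
    | some i =>
      simp only [Option.elim_some, bx]
      rcases Int.units_eq_one_or (y i) with h1 | h1 <;> simp [h1]
  obtain ⟨g', hg'0, hg'1, hg'2⟩ := gext T g hg0 hg1
  set f : (Fin N → ℤˣ) → ℝ := fun y => p (bx y) with hf
  have hfP : f = P.out T g' := by
    funext y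
    rw [hf]
    beta_reduce
    rw [hp]
    unfold Pr.out
    rw [S_eq_ofFn]
    refine Finset.sum_congr rfl fun a _ => ?_
    rw [hg'2, hAP, nsq_rv]
  have hEx : E = Ex f := by
    rw [hE]; exact (Ex_bx p).symm
  have hVV : Var = Cov f f := by
    have h1 : Var = Ex (fun x => (f x - E) ^ 2) := by
      rw [hVar]; exact (Ex_bx (fun x => (p x - E) ^ 2)).symm
    rw [h1, Ex_sq_sub, hEx]
    simp
  have hT : 1 ≤ T := T_pos P T g' (by rw [← hfP, ← hVV]; exact hpos)
  have hV0 : 0 < Cov (P.out T g') (P.out T g') := by rw [← hfP, ← hVV]; exact hpos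
  have key : ∀ (m : ℝ) (S : Finset (Fin N)) (a : Fin N → ℤˣ),
      (S.card : ℝ) ≤ 2 ^ 23 * (T : ℝ) ^ 9 * m ^ 2 / Cov (P.out T g') (P.out T g') ^ 4 →
      Cov (P.out T g') (P.out T g') / 2
        ≤ (Ex (fun x => P.out T g' (S.piecewise a x)) - Ex (P.out T g')) ^ 2 →
      ∃ (S : Finset (Fin N)) (a : Fin N → Bool),
        (S.card : ℝ) ≤ 2 ^ 23 * (T : ℝ) ^ 9 * m ^ 2 / Var ^ 4 ∧
        Real.sqrt (Var / 2) ≤
          |(∑ x ∈ Finset.univ.filter (fun x : Fin N → Bool => ∀ i ∈ S, x i = a i), p x)
              / ((Finset.univ.filter (fun x : Fin N → Bool => ∀ i ∈ S, x i = a i)).card : ℝ)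
            - E| := by
    intro m S a hS ha
    refine ⟨S, bx a, ?_, ?_⟩
    · rw [← hfP, ← hVV] at hS
      exact hS
    · rw [← hfP, ← hVV, ← hEx] at ha
      have h1 : Ex (fun y => f (S.piecewise a y))
          = (∑ x ∈ Finset.univ.filter (fun x : Fin N → Bool => ∀ i ∈ S, x i = bx a i), p x)
            / ((Finset.univ.filter (fun x : Fin N → Bool => ∀ i ∈ S, x i = bx a i)).card : ℝ) := by
        rw [← subcube_avg S (bx a) p, ← Ex_bx]
        refine Ex_congr fun y => ?_
        rw [hf]
        change p (bx (S.piecewise a y)) = _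
        rw [bx_piecewise]
      rw [h1] at ha
      rw [← Real.sqrt_sq_eq_abs]
      exact Real.sqrt_le_sqrt ha
  refine ⟨?_, ?_⟩
  · have hcM : (Fintype.card (Fin M) : ℝ) = M := by rw [Fintype.card_fin]
    obtain ⟨S, a, hS, ha⟩ := fix P T hT g' hg'0 hg'1 hV0 M (nuV pos V) (nuV_nonneg pos V)
      (fun h => by rw [← hcM]; exact sum_nuV pos V hV h)
      (by rw [hP, Exc_nuV pos V K hV hK v hv (fun h y => A h (bx y)) hAP]; positivity)
    exact key M S a hS ha
  · intro m ν hν0 hν hex
    obtain ⟨S, a, hS, ha⟩ := fix P T hT g' hg'0 hg'1 hV0 m ν hν0 hν (by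
      rw [← hfP, ← hVV, hP, Exc_mkPr pos V K hV hK v hv (fun h y => A h (bx y)) hAP]
      refine le_trans (le_of_eq ?_) hex
      refine Finset.sum_congr rfl fun t _ => Finset.sum_congr rfl fun a _ => ?_
      rw [← Ex_bx]
      refine Ex_congr fun x => Finset.sum_congr rfl fun k _ => ?_
      rw [hq])
    exact key m S a hS ha

end Pool.Agent.Results.MP_58d537_lc.SmoothQueries
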